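import Pool.Agent.Q32.SK.Stm2

/-!
# Project SK, job UGR
-/

set_option autoImplicit false

namespace Q47.SK

open Function Q32.SK

section val

variable {G M H : Type} [Group G] [MulAction G M] [Group H] (α : H →* Equiv.Perm M)

/-- the permutation of a letter -/
def L (l : G × H) : Equiv.Perm M := α l.2 * MulAction.toPermHom G M l.1

/-- the permutation of a word -/
def val : List (G × H) → Equiv.Perm M
  | [] => 1
  | l :: w => val w * L α l

theorem val_append (u v : List (G × H)) : val α (u ++ v) = val α v * val α u := by
  induction u with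
  | nil => simp [val]
  | cons l u ih => simp [val, ih, mul_assoc]

theorem utr_iff (w : List (G × H)) : ∀ x z : M,
    UTr Set.univ (fun h x => α h x) w x z ↔ val α w x = z := by
  induction w with
  | nil =>
    intro x z
    constructor
    · intro h
      cases h
      rfl
    · intro h
      have : x = z := h
      subst this
      exact UTr.nil x
  | cons l w ih =>
    intro x z
    constructor
    · intro h
      cases h with
      | cons _ _ _ _ h1 h2 => exact (ih _ _).1 h2
    · intro h
      exact UTr.cons l w x z (Set.mem_univ _) ((ih _ _).2 h)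

/-- the conclusion of the claim -/
def Con (γ : Equiv.Perm M) : Prop :=
  ∃ c : Equiv.Perm M, (∃ g : G, c * γ * c⁻¹ = MulAction.toPermHom G M g) ∨
    (∃ h : H, c * γ * c⁻¹ = α h) ∨ ∃ w : List (G × H), URed w ∧ c * γ * c⁻¹ = val α w

theorem Con.conj {γ γ' : Equiv.Perm M} (c : Equiv.Perm M) (hc : c * γ * c⁻¹ = γ')
    (h : Con (G := G) α γ') : Con (G := G) α γ := by
  obtain ⟨c', hc'⟩ := h
  refine ⟨c' * c, ?_⟩
  have e : c' * c * γ * (c' * c)⁻¹ = c' * γ' * c'⁻¹ := by
    rw [← hc]
    group
  rw [e]
  exact hc'

theorem claim : ∀ (n : ℕ) (w : List (G × H)), w.length = n → Con (G := G) α (val α w) := by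
  intro n
  induction n with
  | zero =>
    intro w hw
    have : w = [] := List.length_eq_zero_iff.1 hw
    subst this
    exact ⟨1, Or.inl ⟨1, by simp only [val, map_one, mul_one, inv_one]⟩⟩
  | succ n ih =>
    intro w hw
    by_cases hr : ∀ l ∈ w, l.1 ≠ 1 ∧ l.2 ≠ 1
    · refine ⟨1, Or.inr (Or.inr ⟨w, ⟨?_, hr⟩, by simp⟩)⟩
      rintro rfl
      simp at hw
    · push Not at hr
      obtain ⟨l, hl, hl2⟩ := hr
      obtain ⟨u, v, rfl⟩ := List.append_of_mem hl
      have hlen : (v ++ u).length = n := by
        simp only [List.length_append, List.length_cons] at hw ⊢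
        omega
      -- rotate
      have hrot : (val α u) * val α (u ++ l :: v) * (val α u)⁻¹ = val α (l :: (v ++ u)) := by
        rw [val_append]
        have : val α (l :: (v ++ u)) = val α ((l :: v) ++ u) := rfl
        rw [this, val_append (u := l :: v)]
        group
      refine Con.conj α _ hrot ?_
      generalize v ++ u = t at hlen
      by_cases h1 : l.1 = 1
      · -- merge with the previous letter
        rcases List.eq_nil_or_concat t with rfl | ⟨t', l', rfl⟩
        · refine ⟨1, Or.inr (Or.inl ⟨l.2, ?_⟩)⟩
          simp only [val, L, h1, map_one, mul_one, inv_one, one_mul]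
        · have hc : L α l * val α (l :: t'.concat l') * (L α l)⁻¹ =
              val α (t' ++ [(l'.1, l.2 * l'.2)]) := by
            rw [List.concat_eq_append, val_append]
            simp only [val, val_append, L, h1, map_one, mul_one, map_mul, one_mul]
            group
          refine Con.conj α _ hc (ih _ ?_)
          simpa using hlen
      · have h2 : l.2 = 1 := hl2 h1
        rcases t with _ | ⟨l', t'⟩
        · refine ⟨1, Or.inl ⟨l.1, ?_⟩⟩
          simp only [val, L, h2, map_one, mul_one, inv_one, one_mul]
        · have hc : 1 * val α (l :: l' :: t') * (1 : Equiv.Perm M)⁻¹ =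
              val α ((l'.1 * l.1, l'.2) :: t') := by
            simp only [val, L, h2, map_one, one_mul, map_mul, inv_one, mul_one, mul_assoc]
          refine Con.conj α _ hc (ih _ ?_)
          simpa using hlen

theorem exists_word {γ : Equiv.Perm M}
    (hγ : γ ∈ Subgroup.closure (Set.range (MulAction.toPermHom G M) ∪ Set.range α)) :
    ∃ w : List (G × H), val α w = γ := by
  induction hγ using Subgroup.closure_induction with
  | mem x hx =>
    rcases hx with ⟨g, rfl⟩ | ⟨h, rfl⟩
    · exact ⟨[(g, 1)], by simp only [val, L, map_one, one_mul]⟩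
    · exact ⟨[(1, h)], by simp only [val, L, map_one, one_mul, mul_one]⟩
  | one => exact ⟨[], rfl⟩
  | mul x y _ _ hx hy =>
    obtain ⟨w, rfl⟩ := hx
    obtain ⟨w', rfl⟩ := hy
    exact ⟨w' ++ w, val_append α _ _⟩
  | inv x _ hx =>
    obtain ⟨w, rfl⟩ := hx
    clear * -
    induction w with
    | nil => exact ⟨[], by simp [val]⟩
    | cons l w ih =>
      obtain ⟨w', hw'⟩ := ih
      refine ⟨w' ++ [(1, l.2⁻¹), (l.1⁻¹, 1)], ?_⟩
      rw [val_append, hw']
      simp only [val, L, map_one, one_mul, mul_one, map_inv, mul_inv_rev]

theorem val_pow (w : List (G × H)) (hw : URed w) : ∀ n : ℕ, 0 < n →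
    ∃ w' : List (G × H), URed w' ∧ val α w' = val α w ^ n := by
  intro n hn
  induction n with
  | zero => omega
  | succ n ih =>
    rcases Nat.eq_zero_or_pos n with rfl | hn
    · exact ⟨w, hw, by simp⟩
    · obtain ⟨w', h1, h2⟩ := ih hn
      refine ⟨w' ++ w, ⟨by simp [hw.1], ?_⟩, ?_⟩
      · intro l hl
        rcases List.mem_append.1 hl with h | h
        · exact h1.2 l h
        · exact hw.2 l h
      · rw [val_append, h2, pow_succ']

end val

/-- a permutation with a free action of its powers on a finite set -/
theorem free_card {M H : Type} [Group H] [Finite H] (α : H →* Equiv.Perm M) (h : H) (E : Set M)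
    [Finite E] (hE : ∀ x ∈ E, α h x ∈ E) (hf : ∀ (h' : H) (x : M), x ∈ E → α h' x = x → h' = 1) :
    ∃ q : ℕ, q * orderOf h = Nat.card E := by
  classical
  have hpow : ∀ (n : ℕ) (x : M), x ∈ E → α (h ^ n) x ∈ E := by
    intro n
    induction n with
    | zero => intro x hx; simpa using hx
    | succ n ih =>
      intro x hx
      rw [pow_succ', map_mul, Equiv.Perm.mul_apply]
      exact hE _ (ih x hx)
  have hz : ∀ z : Subgroup.zpowers h, ∀ x ∈ E, α (z : H) x ∈ E := by
    rintro ⟨z, hz⟩ x hx
    rw [← mem_powers_iff_mem_zpowers] at hz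
    obtain ⟨n, rfl⟩ := hz
    exact hpow n x hx
  let act : MulAction (Subgroup.zpowers h) E :=
    { smul := fun z x => ⟨α (z : H) x, hz z x x.2⟩
      one_smul := fun x => Subtype.ext (by show α 1 (x : M) = x; simp)
      mul_smul := fun z z' x => Subtype.ext (by
        show α ((z : H) * z') (x : M) = α z (α z' x)
        rw [map_mul, Equiv.Perm.mul_apply]) }
  have hst : ∀ x : E, MulAction.stabilizer (Subgroup.zpowers h) x = ⊥ := by
    intro x
    rw [eq_bot_iff]
    intro z hz'
    have h1 : z • x = x := hz'
    have h2 : α (z : H) (x : M) = x := congrArg Subtype.val h1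
    have h3 := hf z x x.2 h2
    exact Subgroup.mem_bot.2 (Subtype.ext h3)
  have e := MulAction.selfEquivOrbitsQuotientProd hst
  refine ⟨Nat.card (Quotient (MulAction.orbitRel (Subgroup.zpowers h) E)), ?_⟩
  rw [Nat.card_congr e, Nat.card_prod, Nat.card_zpowers]

theorem conj_apply {M : Type} (c γ : Equiv.Perm M) (x : M) :
    (c * γ * c⁻¹) (c x) = c (γ x) := by
  simp

/-- UGR -/
theorem ugr : S_UGR := by
  classical
  intro k I ar 𝒞 G M _ _ _ r hgood d hHC α hαb hαf hαr hword
  have hword' : ∀ w : List (G × d.H), URed w → ∀ x : Fin k → M, Injective x →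
      ¬ ∀ j, val α w (x j) = x j := by
    intro w hw x hx h
    exact hword w hw x hx fun j => (utr_iff α w _ _).2 (h j)
  -- fixed points of `α h` and `b`
  have hfixb : ∀ (h : d.H) (i : Fin k), α h (d.b i) = d.b i → (h : Equiv.Perm (Fin k)) i = i := by
    intro h i hi
    rw [hαb] at hi
    exact d.binj hi
  have hC : ∀ γ ∈ Subgroup.closure (Set.range (MulAction.toPermHom G M) ∪ Set.range α),
      Con (G := G) α γ := by
    intro γ hγ
    obtain ⟨w, rfl⟩ := exists_word α hγ
    exact claim α _ w rfl
  refine ⟨?_, ⟨hgood.cls, ?_, ?_, ?_⟩⟩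
  · -- countable
    have : Function.Surjective (fun w : {w : List (G × d.H) //
        val α w ∈ Subgroup.closure (Set.range (MulAction.toPermHom G M) ∪ Set.range α)} =>
        (⟨val α w.1, w.2⟩ : Subgroup.closure
          (Set.range (MulAction.toPermHom G M) ∪ Set.range α))) := by
      rintro ⟨γ, hγ⟩
      obtain ⟨w, rfl⟩ := exists_word α hγ
      exact ⟨⟨w, hγ⟩, rfl⟩
    exact this.countable
  · -- invariance
    rintro ⟨γ, hγ⟩
    show r.pull (fun x => γ x) = r
    induction hγ using Subgroup.closure_induction with
    | mem x hx =>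
      rcases hx with ⟨g, rfl⟩ | ⟨h, rfl⟩
      · exact hgood.inv g
      · exact hαr h
    | one => rfl
    | mul x y _ _ hx hy =>
      have : r.pull (fun z => (x * y) z) = (r.pull (fun z => x z)).pull (fun z => y z) := rfl
      rw [this, hx, hy]
    | inv x _ hx =>
      have h1 : (r.pull (fun z => x z)).pull (fun z => x⁻¹ z) = r := by
        rw [Str.pull_pull]
        have : (fun z => x (x⁻¹ z)) = fun z => z := by
          funext z
          simp
        rw [this]
        exact Str.pull_id r
      rw [hx] at h1
      exact h1
  · -- sharpness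
    rintro ⟨γ, hγ⟩ a ha hfix
    replace hfix : ∀ i, γ (a i) = a i := hfix
    apply Subtype.ext
    show γ = 1
    obtain ⟨c, hc⟩ := hC γ hγ
    have hfix' : ∀ i, (c * γ * c⁻¹) (c (a i)) = c (a i) := by
      intro i
      rw [conj_apply, hfix]
    have hinj : Injective (fun i => c (a i)) := c.injective.comp ha
    suffices h : c * γ * c⁻¹ = 1 by
      have : γ = c⁻¹ * (c * γ * c⁻¹) * c := by group
      rw [this, h]
      group
    rcases hc with ⟨g, hg⟩ | ⟨h, hh⟩ | ⟨w, hw, hw'⟩
    · rw [hg] at hfix' ⊢
      have := hgood.shp g (fun i => c (a i)) hinj hfix'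
      rw [this, map_one]
    · rw [hh] at hfix' ⊢
      by_cases h1 : h = 1
      · rw [h1, map_one]
      · exfalso
        have hr : ∀ i, c (a i) ∈ Set.range d.b := by
          intro i
          by_contra hcon
          exact h1 (hαf h _ hcon (hfix' i))
        choose f hf using hr
        have hfinj : Injective f := by
          intro i j hij
          apply hinj
          show c (a i) = c (a j)
          rw [← hf i, ← hf j, hij]
        have hfs : Surjective f := Finite.surjective_of_injective hfinj
        apply h1
        apply Subtype.ext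
        apply Equiv.ext
        intro i
        obtain ⟨j, rfl⟩ := hfs i
        apply hfixb
        rw [hf j]
        exact hfix' j
    · exfalso
      rw [hw'] at hfix'
      exact hword' w hw _ hinj hfix'
  · -- fixed points of elements which preserve a set with `k` points
    rintro ⟨γ, hγ⟩ D hD hpres hne x hx
    replace hpres : ∀ x ∈ D, γ x ∈ D := hpres
    replace hx : γ x = x := hx
    have hne' : γ ≠ 1 := fun h => hne (Subtype.ext h)
    obtain ⟨c, hc⟩ := hC γ hγ
    -- the image of `D`
    let D' : Finset M := D.map c.toEmbedding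
    have hD' : D'.card = k := by rw [Finset.card_map, hD]
    have hmem : ∀ y, c y ∈ D' ↔ y ∈ D := by
      intro y
      exact Finset.mem_map' c.toEmbedding
    have hpres' : ∀ y ∈ D', (c * γ * c⁻¹) y ∈ D' := by
      intro y hy
      obtain ⟨z, hz, rfl⟩ := Finset.mem_map.1 hy
      show (c * γ * c⁻¹) (c z) ∈ D'
      rw [conj_apply, hmem]
      exact hpres z hz
    have hx' : (c * γ * c⁻¹) (c x) = c x := by rw [conj_apply, hx]
    have hne'' : c * γ * c⁻¹ ≠ 1 := by
      intro h
      apply hne'
      have : γ = c⁻¹ * (c * γ * c⁻¹) * c := by group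
      rw [this, h]
      group
    rw [← hmem]
    rcases hc with ⟨g, hg⟩ | ⟨h, hh⟩ | ⟨w, hw, hw'⟩
    · rw [hg] at hpres' hx' hne''
      refine hgood.fre g D' hD' hpres' ?_ (c x) hx'
      rintro rfl
      exact hne'' (map_one _)
    · rw [hh] at hpres' hx' hne''
      have h1 : h ≠ 1 := by
        rintro rfl
        exact hne'' (map_one _)
      have hr : c x ∈ Set.range d.b := by
        by_contra hcon
        exact h1 (hαf h _ hcon hx')
      obtain ⟨i, hi⟩ := hr
      rw [← hi]
      let O : Finset (Fin k) := Finset.univ.filter (fun i => d.b i ∈ D')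
      have hO : ∀ j, j ∈ O ↔ d.b j ∈ D' := by
        intro j
        simp [O]
      rw [← hO]
      have h1' : (h : Equiv.Perm (Fin k)) ≠ 1 := fun hh' => h1 (Subtype.ext hh')
      refine hHC h h.2 h1' O ?_ ?_ i ?_
      · intro j hj
        rw [hO] at hj ⊢
        rw [← hαb]
        exact hpres' _ hj
      · let E : Set M := {y | y ∈ D' ∧ y ∉ Set.range d.b}
        have hEfin : E.Finite := D'.finite_toSet.subset (fun y hy => hy.1)
        have : Finite E := hEfin
        have hE1 : ∀ y ∈ E, α h y ∈ E := by
          rintro y ⟨hy1, hy2⟩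
          refine ⟨hpres' y hy1, ?_⟩
          rintro ⟨j, hj⟩
          apply hy2
          refine ⟨(h⁻¹ : Equiv.Perm (Fin k)) j, ?_⟩
          apply (α h).injective
          rw [hαb]
          simp [hj]
        have hE2 : ∀ (h' : d.H) (y : M), y ∈ E → α h' y = y → h' = 1 := by
          intro h' y hy hfix
          exact hαf h' y hy.2 hfix
        obtain ⟨q, hq⟩ := free_card α h E hE1 hE2
        · refine ⟨q, ?_⟩
          have ho : orderOf (h : Equiv.Perm (Fin k)) = orderOf h := Subgroup.orderOf_coe h
          rw [ho, hq]
          have hE : Nat.card E = (D'.filter (fun y => y ∉ Set.range d.b)).card := by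
            rw [Nat.card_eq_card_finite_toFinset hEfin]
            congr 1
            ext y
            simp [E]
          have hOc : O.card = (D'.filter (fun y => y ∈ Set.range d.b)).card := by
            rw [← Finset.card_map ⟨d.b, d.binj⟩]
            congr 1
            ext y
            simp only [Finset.mem_map, Function.Embedding.coeFn_mk, Finset.mem_filter, hO,
              Set.mem_range]
            constructor
            · rintro ⟨j, hj, rfl⟩
              exact ⟨hj, j, rfl⟩
            · rintro ⟨hy, j, rfl⟩
              exact ⟨j, hy, rfl⟩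
          rw [hE, hOc, Finset.card_filter_add_card_filter_not, hD']
      · apply hfixb
        rw [hi]
        exact hx'
    · exfalso
      rw [hw'] at hpres'
      -- a power of `val w` fixes the points of `D'`
      let σ : Equiv.Perm D' := by
        refine Equiv.ofBijective (fun y => ⟨val α w y, hpres' y y.2⟩) ?_
        apply Function.Injective.bijective_of_finite
        intro y z hyz
        exact Subtype.ext ((val α w).injective (congrArg Subtype.val hyz))
      have hσ : ∀ (n : ℕ) (y : D'), (((σ ^ n) y : D') : M) = (val α w ^ n) y := by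
        intro n
        induction n with
        | zero => intro y; rfl
        | succ n ih =>
          intro y
          rw [pow_succ', pow_succ', Equiv.Perm.mul_apply, Equiv.Perm.mul_apply, ← ih y]
          rfl
      obtain ⟨n, hn, hn'⟩ := isOfFinOrder_iff_pow_eq_one.1 (isOfFinOrder_of_finite σ)
      obtain ⟨w', hw1, hw2⟩ := val_pow α w hw n hn
      have e : Fin k ≃ D' := (Fintype.equivFinOfCardEq (by simp [hD'])).symm
      refine hword' w' hw1 (fun j => (e j : M)) (fun i j hij => e.injective (Subtype.ext hij)) ?_
      intro j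
      rw [hw2, ← hσ, hn']
      rfl

end Q47.SK
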